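import Pool.Agent.Helper23.EC.DGoalsA

/-! Packet A6 of MP_ecc237_nt, Part D: conclusion of block A. -/

set_option autoImplicit false

open MeasureTheory Filter Topology Set

namespace Pool.Agent.Helper70.EC.D_A6

open EC237

theorem thm (hA1 : EC237.A1) (hA2 : EC237.A2) (hA3 : EC237.A3) (hA4 : EC237.A4)
    (hA5 : EC237.A5) : EC237.A6 := by
  have _ := hA1
  have _ := hA3
  intro w hw
  constructor
  · intro v1 v2 v3 v4 hs h1 h2 h3 h4 h12 h23
    have e1 := hA2 w hw v1 v2 v3 v4 h1 h2 h3 h4 h12 2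
    have e2 := hA2 w hw v2 v3 v4 v1 h2 h3 h4 h1 h23 2
    have e3 := hA4 w hw v1 v2 v3 v4 hs h1 h2 h3 h4 h12 h23
    have e4 := e1.add e2
    unfold q2 t2 Qst
    rw [← e3]
    simp only [map_add, PowerSeries.coeff_smul, smul_eq_mul, mul_add] at e4 ⊢
    exact e4
  · intro v1 v3 h1 h3 h13
    obtain ⟨e1, e2⟩ := hA5 w hw v1 v3 h1 h3 h13
    have e3 := hA2 w hw (-v1) v3 (-v3) v1 (by simpa using h1) h3 (by simpa using h3) h1
      (by simpa using h13) 2
    rw [e1] at e3
    unfold q2 t2 Qst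
    simp only [map_add, PowerSeries.coeff_smul, smul_eq_mul, e2, zero_add] at e3 ⊢
    exact e3

end Pool.Agent.Helper70.EC.D_A6
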